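import Pool.Agent.Helper22.TB.Goals

/-!
Project TB (MP_74f661_nt), packet SQ.
-/

set_option autoImplicit false

open Finset Filter Topology
open Pool.Agent.Helper22.TB

namespace Pool.Agent.Helper36.TB

theorem pdu_prod (hC : G_PDC) (hS : G_SIG) (T : Finset ℕ)
    (hT : ∀ p ∈ T, p.Prime ∧ 5 ≤ p) :
    PDU (∏ p ∈ T, p) (fun g => ∏ p ∈ T, sm p g) := by
  classical
  induction T using Finset.induction_on with
  | empty =>
    simp only [Finset.prod_empty]
    exact hC.2.2.2.2.2.2.2.2
  | insert p T hp ih =>
    have ih' := ih (fun r hr => hT r (Finset.mem_insert_of_mem hr))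
    obtain ⟨hpp, hp5⟩ := hT p (Finset.mem_insert_self p T)
    have h1 := (hS p hpp hp5).1
    have hcop : Nat.Coprime p (∏ r ∈ T, r) := by
      apply Nat.Coprime.prod_right
      intro r hr
      have hrp := (hT r (Finset.mem_insert_of_mem hr)).1
      rw [Nat.coprime_primes hpp hrp]
      rintro rfl
      exact hp hr
    have hpos : 1 ≤ ∏ r ∈ T, r := by
      apply Nat.one_le_iff_ne_zero.mpr
      rw [Finset.prod_ne_zero_iff]
      intro r hr
      exact (hT r (Finset.mem_insert_of_mem hr)).1.ne_zero
    have h2 := hC.2.2.2.2.2.2.2.1 p (∏ r ∈ T, r) (sm p) (fun g => ∏ r ∈ T, sm r g)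
      hpp.one_lt.le hpos hcop h1 ih'
    rw [Finset.prod_insert hp]
    simp only [Finset.prod_insert hp]
    exact h2

theorem gSQ : G_SQ := by
  intro hC hS
  refine ⟨?_, ?_, ?_⟩
  · intro q q' g h
    unfold Pool.Agent.Helper22.TB.sq
    rw [h.primeFactors_mul, Finset.prod_union h.disjoint_primeFactors]
  · intro q
    unfold Pool.Agent.Helper22.TB.sq gq
    apply Finset.prod_congr rfl
    intro p _
    unfold sm
    rw [if_pos (dvd_zero p)]
  · intro q hq
    have h1 := pdu_prod hC hS q.primeFactors (by
      intro p hp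
      have hpp := Nat.prime_of_mem_primeFactors hp
      refine ⟨hpp, ?_⟩
      have hd := Nat.dvd_of_mem_primeFactors hp
      have hc : Nat.Coprime p 6 := Nat.Coprime.coprime_dvd_left hd hq.2
      have h2 : p ≠ 2 := by
        rintro rfl
        revert hc
        decide
      have h3 : p ≠ 3 := by
        rintro rfl
        revert hc
        decide
      have h4 : p ≠ 4 := by
        rintro rfl
        revert hc
        decide
      have h5 := hpp.two_le
      omega)
    rw [Nat.prod_primeFactors_of_squarefree hq.1] at h1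
    exact h1

end Pool.Agent.Helper36.TB
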